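import Mathlib

set_option autoImplicit false

/-! An order in the quaternion algebra `(5, √2)` over `ℚ(√2)`, and its two real matrix
representations. -/

namespace Pool.Agent.R785.RO

open Matrix

/-- the ring of integers of `ℚ(√2)` -/
abbrev Rt : Type := ℤ√2

/-- the quaternions `x + y i + z j + w ij` with `i^2 = 5`, `j^2 = √2`, coefficients in `ℤ[√2]` -/
abbrev O : Type := QuaternionAlgebra (ℤ√2) 5 0 ⟨0, 1⟩

/-- the positive fourth root of two -/
noncomputable def be : ℝ := √(√2)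

lemma r2_sq : √2 * √2 = (2 : ℝ) := Real.mul_self_sqrt (by norm_num)
lemma r5_sq : √5 * √5 = (5 : ℝ) := Real.mul_self_sqrt (by norm_num)
lemma r2_pos : (0 : ℝ) < √2 := Real.sqrt_pos.2 (by norm_num)
lemma r5_pos : (0 : ℝ) < √5 := Real.sqrt_pos.2 (by norm_num)
lemma be_pos : 0 < be := Real.sqrt_pos.2 r2_pos
lemma be_sq : be * be = √2 := Real.mul_self_sqrt r2_pos.le
lemma r2_gt : (1 : ℝ) < √2 := by
  have h := r2_sq
  have h1 := r2_pos
  nlinarith
lemma be_gt : 1 < be := by
  have h := be_sq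
  have h1 := be_pos
  have := r2_gt
  nlinarith

/-- first embedding -/
noncomputable def s1 : Rt →+* ℝ := Zsqrtd.lift ⟨√2, by rw [r2_sq]; norm_num⟩
/-- second embedding -/
noncomputable def s2 : Rt →+* ℝ := Zsqrtd.lift ⟨-√2, by rw [neg_mul_neg, r2_sq]; norm_num⟩

lemma s1_apply (x : Rt) : s1 x = x.re + x.im * √2 := by
  simp [s1]
lemma s2_apply (x : Rt) : s2 x = x.re - x.im * √2 := by
  simp [s2, sub_eq_add_neg]

/-- the norm form -/
def nrm (q : O) : Rt :=
  q.re * q.re - 5 * (q.imI * q.imI) - ⟨0, 1⟩ * (q.imJ * q.imJ) + 5 * ⟨0, 1⟩ * (q.imK * q.imK)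

/-- real matrices, split form, first place -/
noncomputable def mA (x y z w : ℝ) : Matrix (Fin 2) (Fin 2) ℝ :=
  !![x + be * z, √5 * (y - be * w); √5 * (y + be * w), x - be * z]
/-- real matrices, second place -/
noncomputable def mB (x y z w : ℝ) : Matrix (Fin 2) (Fin 2) ℝ :=
  !![x + √5 * y, -(be * (z + √5 * w)); be * (z - √5 * w), x - √5 * y]

/-- first representation -/
noncomputable def M1 (q : O) : Matrix (Fin 2) (Fin 2) ℝ :=
  mA (s1 q.re) (s1 q.imI) (s1 q.imJ) (s1 q.imK)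
/-- second representation -/
noncomputable def M2 (q : O) : Matrix (Fin 2) (Fin 2) ℝ :=
  mB (s2 q.re) (s2 q.imI) (s2 q.imJ) (s2 q.imK)

lemma s1_s : s1 ⟨0, 1⟩ = be * be := by rw [s1_apply, be_sq]; simp
lemma s2_s : s2 ⟨0, 1⟩ = -(be * be) := by rw [s2_apply, be_sq]; simp
lemma s1_5 : s1 5 = 5 := map_ofNat s1 5
lemma s2_5 : s2 5 = 5 := map_ofNat s2 5

lemma M1_mul (p q : O) : M1 (p * q) = M1 p * M1 q := by
  have h5 := r5_sq
  ext i j
  fin_cases i <;> fin_cases j <;>
    simp [M1, mA, Matrix.mul_apply, Fin.sum_univ_two, s1_s, s1_5]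
  · linear_combination (-(s1 p.imI) * s1 q.imI - be * s1 p.imI * s1 q.imK + be * s1 p.imK * s1 q.imI + be * be * s1 p.imK * s1 q.imK) * h5
  · ring
  · ring
  · linear_combination (-(s1 p.imI) * s1 q.imI + be * s1 p.imI * s1 q.imK - be * s1 p.imK * s1 q.imI + be * be * s1 p.imK * s1 q.imK) * h5

lemma M2_mul (p q : O) : M2 (p * q) = M2 p * M2 q := by
  have h5 := r5_sq
  ext i j
  fin_cases i <;> fin_cases j <;>
    simp [M2, mB, Matrix.mul_apply, Fin.sum_univ_two, s2_s, s2_5]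
  · linear_combination (-(s2 p.imI) * s2 q.imI - be * be * s2 p.imK * s2 q.imK) * h5
  · linear_combination (be * s2 p.imI * s2 q.imK - be * s2 p.imK * s2 q.imI) * h5
  · linear_combination (-be * s2 p.imI * s2 q.imK + be * s2 p.imK * s2 q.imI) * h5
  · linear_combination (-(s2 p.imI) * s2 q.imI - be * be * s2 p.imK * s2 q.imK) * h5

lemma M1_det (q : O) : (M1 q).det = s1 (nrm q) := by
  have h5 := r5_sq
  simp only [M1, mA, nrm, Matrix.det_fin_two_of, map_add, map_sub, map_mul, s1_s, s1_5]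
  linear_combination (-(s1 q.imI) * s1 q.imI + be * be * s1 q.imK * s1 q.imK) * h5

lemma M2_det (q : O) : (M2 q).det = s2 (nrm q) := by
  have h5 := r5_sq
  simp only [M2, mB, nrm, Matrix.det_fin_two_of, map_add, map_sub, map_mul, s2_s, s2_5]
  linear_combination (-(s2 q.imI) * s2 q.imI - be * be * s2 q.imK * s2 q.imK) * h5

end Pool.Agent.R785.RO
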