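import Pool.Agent.R785.RO.Mink
import Pool.Agent.Helper852.EZ.J2c

set_option autoImplicit false

/-! Cocompactness. -/

namespace Pool.Agent.R785.RO

open Matrix UpperHalfPlane
open scoped MatrixGroups
open Pool.Agent.Helper852.EZ

lemma M1_smul (c : ℤ√2) (q : O) : M1 (c • q) = s1 c • M1 q := by
  ext i j
  fin_cases i <;> fin_cases j <;> simp [M1, mA] <;> ring

lemma M2_smul (c : ℤ√2) (q : O) : M2 (c • q) = s2 c • M2 q := by
  ext i j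
  fin_cases i <;> fin_cases j <;> simp [M2, mB] <;> ring

lemma norm_eq (n : ℤ√2) : (n.norm : ℝ) = s1 n * s2 n := by
  rw [s1_apply, s2_apply, Zsqrtd.norm_def]
  push_cast
  linear_combination (n.im : ℝ) * n.im * r2_sq

lemma norm_ne (n : ℤ√2) (hn : n ≠ 0) : n.norm ≠ 0 := by
  intro h
  have h1 := norm_eq n
  rw [h, Int.cast_zero] at h1
  rcases mul_eq_zero.1 h1.symm with h2 | h2
  · exact hn (s1_inj (by rw [h2, map_zero]))
  · exact hn (s2_inj (by rw [h2, map_zero]))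

/-- the modulus -/
def md (q : O) : ℤ := 3 * (nrm q).norm

/-- the residues -/
def rs (q : O) : O :=
  ⟨⟨q.re.re % md q, q.re.im % md q⟩, ⟨q.imI.re % md q, q.imI.im % md q⟩,
    ⟨q.imJ.re % md q, q.imJ.im % md q⟩, ⟨q.imK.re % md q, q.imK.im % md q⟩⟩

lemma key_finite (B : ℕ) : ((fun q : O => (nrm q, rs q)) ''
    {q : O | nrm q ≠ 0 ∧ |s1 (nrm q)| ≤ B ∧ |s2 (nrm q)| ≤ B}).Finite := by
  have hf : ∀ N : ℕ, (Set.Icc (-N : ℤ) N ×ˢ Set.Icc (-N : ℤ) N).Finite := fun N =>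
    (Set.finite_Icc _ _).prod (Set.finite_Icc _ _)
  have hN := (hf (B * B)).image (fun p : ℤ × ℤ => (⟨p.1, p.2⟩ : ℤ√2))
  have hF := ((hf (3 * (B * B))).prod ((hf (3 * (B * B))).prod ((hf (3 * (B * B))).prod
    (hf (3 * (B * B)))))).image
    (fun p : (ℤ × ℤ) × (ℤ × ℤ) × (ℤ × ℤ) × (ℤ × ℤ) =>
      (⟨⟨p.1.1, p.1.2⟩, ⟨p.2.1.1, p.2.1.2⟩, ⟨p.2.2.1.1, p.2.2.1.2⟩, ⟨p.2.2.2.1, p.2.2.2.2⟩⟩ : O))
  refine (hN.prod hF).subset ?_
  rintro _ ⟨q, ⟨hn, h1, h2⟩, rfl⟩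
  constructor
  · have k1 : s1 (nrm q) ^ 2 ≤ ((B * B : ℕ) : ℝ) := by
      rw [← sq_abs]; push_cast; nlinarith [abs_nonneg (s1 (nrm q))]
    have k2 : s2 (nrm q) ^ 2 ≤ ((B * B : ℕ) : ℝ) := by
      rw [← sq_abs]; push_cast; nlinarith [abs_nonneg (s2 (nrm q))]
    exact ⟨((nrm q).re, (nrm q).im), sq_bound (B * B) _ k1 k2, rfl⟩
  · have hmd0 : md q ≠ 0 := mul_ne_zero (by norm_num) (norm_ne _ hn)
    have hmd : |md q| ≤ 3 * (B * B) := by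
      have k : |((nrm q).norm : ℝ)| ≤ B * B := by
        rw [norm_eq, abs_mul]
        exact mul_le_mul h1 h2 (abs_nonneg _) (by positivity)
      have k' : |(nrm q).norm| ≤ (B * B : ℤ) := by exact_mod_cast k
      rw [md, abs_mul]
      norm_num
      exact k'
    have key : ∀ t : ℤ, t % md q ∈ Set.Icc (-(3 * (B * B) : ℕ) : ℤ) ((3 * (B * B) : ℕ) : ℤ) := by
      intro t
      have a1 := Int.emod_nonneg t hmd0
      have a2 := Int.emod_lt_abs t hmd0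
      rw [Set.mem_Icc]
      push_cast
      constructor <;> linarith
    exact ⟨((q.re.re % md q, q.re.im % md q), (q.imI.re % md q, q.imI.im % md q),
      (q.imJ.re % md q, q.imJ.im % md q), (q.imK.re % md q, q.imK.im % md q)),
      ⟨⟨key _, key _⟩, ⟨key _, key _⟩, ⟨key _, key _⟩, ⟨key _, key _⟩⟩, rfl⟩

lemma choice (B : ℕ) : ∃ C : ℝ, 0 ≤ C ∧ ∀ q : O, nrm q ≠ 0 → |s1 (nrm q)| ≤ B →
    |s2 (nrm q)| ≤ B →
    ∃ q' d : O, nrm q' = nrm q ∧ q = q' + (3 * nrm q) • d ∧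
      (∀ i j, |M1 (cj q') i j| ≤ C) ∧ ∀ i j, |M2 (cj q') i j| ≤ C := by
  set S : Set O := {q : O | nrm q ≠ 0 ∧ |s1 (nrm q)| ≤ B ∧ |s2 (nrm q)| ≤ B} with hS
  set key : O → (ℤ√2) × O := fun q => (nrm q, rs q) with hkey
  obtain ⟨u, huS, hu⟩ := Set.SurjOn.exists_bijOn_subset (Set.surjOn_image key S)
  have hufin : u.Finite := by
    apply Set.Finite.of_finite_image _ hu.injOn
    rw [hu.image_eq]
    exact key_finite B
  obtain ⟨C, hC⟩ := (hufin.image (fun q => (∑ i, ∑ j, |M1 (cj q) i j|) +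
    ∑ i, ∑ j, |M2 (cj q) i j|)).bddAbove
  have hle : ∀ (A : Matrix (Fin 2) (Fin 2) ℝ) i j, |A i j| ≤ ∑ i, ∑ j, |A i j| := by
    intro A i j
    refine le_trans ?_ (Finset.single_le_sum (f := fun i => ∑ j, |A i j|)
        (fun i _ => Finset.sum_nonneg (fun j _ => abs_nonneg _)) (Finset.mem_univ i))
    exact Finset.single_le_sum (f := fun j => |A i j|) (fun j _ => abs_nonneg _)
        (Finset.mem_univ j)
  have hnn : ∀ (A : Matrix (Fin 2) (Fin 2) ℝ), 0 ≤ ∑ i, ∑ j, |A i j| := fun A =>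
    Finset.sum_nonneg fun i _ => Finset.sum_nonneg fun j _ => abs_nonneg _
  refine ⟨max C 0, le_max_right _ _, ?_⟩
  intro q h0 h1 h2
  have hq : key q ∈ key '' u := by
    rw [hu.image_eq]
    exact ⟨q, ⟨h0, h1, h2⟩, rfl⟩
  obtain ⟨q', hq', hk⟩ := hq
  have hb := hC (Set.mem_image_of_mem _ hq')
  have hn : nrm q' = nrm q := congrArg Prod.fst hk
  have hr : rs q' = rs q := congrArg Prod.snd hk
  have hmd : md q' = md q := by rw [md, md, hn]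
  have hdvd : ∀ a b : ℤ, b % md q' = a % md q → ∃ e, a - b = md q * e := by
    intro a b hab
    rw [hmd] at hab
    exact Int.ModEq.dvd hab
  have e1 := congrArg (fun q : O => q.re.re) hr
  have e2 := congrArg (fun q : O => q.re.im) hr
  have e3 := congrArg (fun q : O => q.imI.re) hr
  have e4 := congrArg (fun q : O => q.imI.im) hr
  have e5 := congrArg (fun q : O => q.imJ.re) hr
  have e6 := congrArg (fun q : O => q.imJ.im) hr
  have e7 := congrArg (fun q : O => q.imK.re) hr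
  have e8 := congrArg (fun q : O => q.imK.im) hr
  obtain ⟨c1, k1⟩ := hdvd _ _ e1
  obtain ⟨c2, k2⟩ := hdvd _ _ e2
  obtain ⟨c3, k3⟩ := hdvd _ _ e3
  obtain ⟨c4, k4⟩ := hdvd _ _ e4
  obtain ⟨c5, k5⟩ := hdvd _ _ e5
  obtain ⟨c6, k6⟩ := hdvd _ _ e6
  obtain ⟨c7, k7⟩ := hdvd _ _ e7
  obtain ⟨c8, k8⟩ := hdvd _ _ e8
  refine ⟨q', (star (nrm q)) • (⟨⟨c1, c2⟩, ⟨c3, c4⟩, ⟨c5, c6⟩, ⟨c7, c8⟩⟩ : O), hn, ?_, ?_, ?_⟩
  · rw [smul_smul, mul_assoc, ← Zsqrtd.norm_eq_mul_conj]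
    have hm : (3 : ℤ√2) * ((nrm q).norm : ℤ√2) = ((md q : ℤ) : ℤ√2) := by
      rw [md]; push_cast; ring
    rw [hm]
    generalize md q = m at *
    ext <;> simp <;> linarith
  · intro i j
    refine (hle _ i j).trans (le_trans ?_ (le_max_left _ _))
    have := hnn (M2 (cj q'))
    have hb' : (∑ i, ∑ j, |M1 (cj q') i j|) + ∑ i, ∑ j, |M2 (cj q') i j| ≤ C := hb
    linarith
  · intro i j
    refine (hle _ i j).trans (le_trans ?_ (le_max_left _ _))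
    have := hnn (M1 (cj q'))
    have hb' : (∑ i, ∑ j, |M1 (cj q') i j|) + ∑ i, ∑ j, |M2 (cj q') i j| ≤ C := hb
    linarith

lemma det_bound (A : Matrix (Fin 2) (Fin 2) ℝ) (ρ : ℝ) (hρ : 0 < ρ) (h : ∀ i j, |A i j| ≤ ρ) :
    |A.det| ≤ 2 * ρ ^ 2 := by
  rw [Matrix.det_fin_two]
  refine (abs_sub _ _).trans ?_
  rw [abs_mul, abs_mul]
  have p1 := mul_le_mul (h 0 0) (h 1 1) (abs_nonneg _) hρ.le
  have p2 := mul_le_mul (h 0 1) (h 1 0) (abs_nonneg _) hρ.le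
  nlinarith

lemma prod_bound (A B : Matrix (Fin 2) (Fin 2) ℝ) (C ρ : ℝ) (hC : 0 ≤ C)
    (hA : ∀ i j, |A i j| ≤ C) (hB : ∀ i j, |B i j| ≤ ρ) (i j : Fin 2) :
    |(A * B) i j| ≤ 2 * C * ρ := by
  rw [Matrix.mul_apply, Fin.sum_univ_two]
  refine (abs_add_le _ _).trans ?_
  rw [abs_mul, abs_mul]
  have p1 := mul_le_mul (hA i 0) (hB 0 j) (abs_nonneg _) hC
  have p2 := mul_le_mul (hA i 1) (hB 1 j) (abs_nonneg _) hC
  linarith

lemma lower (n : ℤ√2) (hn : n ≠ 0) (B : ℝ) (h1 : |s1 n| ≤ B) (h2 : |s2 n| ≤ B) :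
    1 ≤ B * |s1 n| ∧ 1 ≤ B * |s2 n| := by
  have k : (1 : ℝ) ≤ |s1 n| * |s2 n| := by
    rw [← abs_mul, ← norm_eq]
    have := Int.one_le_abs (norm_ne n hn)
    exact_mod_cast this
  constructor
  · nlinarith [abs_nonneg (s1 n)]
  · nlinarith [abs_nonneg (s2 n)]

lemma scaled_bound (U P Q M : Matrix (Fin 2) (Fin 2) ℝ) (c B C ρ : ℝ) (hC : 0 ≤ C)
    (hc : 1 ≤ B * |c|) (hB : 0 ≤ B)
    (h : c • U = P * Q) (hP : ∀ i j, |P i j| ≤ C) (hQ : ∀ i j, |(Q * M) i j| ≤ ρ) (i j : Fin 2) :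
    |(U * M) i j| ≤ B * (2 * C * ρ) := by
  have h1 : c • (U * M) = P * (Q * M) := by
    rw [← Matrix.smul_mul, h, Matrix.mul_assoc]
  have h2 := prod_bound P (Q * M) C ρ hC hP hQ i j
  rw [← h1, Matrix.smul_apply, smul_eq_mul, abs_mul] at h2
  calc |(U * M) i j| = 1 * |(U * M) i j| := (one_mul _).symm
    _ ≤ (B * |c|) * |(U * M) i j| := mul_le_mul_of_nonneg_right hc (abs_nonneg _)
    _ = B * (|c| * |(U * M) i j|) := by ring
    _ ≤ B * (2 * C * ρ) := mul_le_mul_of_nonneg_left h2 hB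

lemma det_one (U P Q : Matrix (Fin 2) (Fin 2) ℝ) (c : ℝ) (hc : c ≠ 0) (h : c • U = P * Q)
    (hP : P.det = c) (hQ : Q.det = c) : U.det = 1 := by
  have h1 := congrArg Matrix.det h
  rw [Matrix.det_mul, Matrix.det_smul, Fintype.card_fin, hP, hQ] at h1
  have h3 : c ^ 2 * (U.det - 1) = 0 := by linear_combination h1
  rcases mul_eq_zero.1 h3 with h | h
  · exact absurd h (pow_ne_zero _ hc)
  · linarith

/-- Cocompactness. -/
theorem cocompact : ∃ D : ℝ, ∀ z1 z2 : ℍ, ∃ g ∈ Gm,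
    dist (g.1 • z1) UpperHalfPlane.I ≤ D ∧ dist (g.2 • z2) UpperHalfPlane.I ≤ D := by
  obtain ⟨ρ, hρ, hm⟩ := mink
  obtain ⟨B, hB⟩ := exists_nat_ge (2 * ρ ^ 2)
  obtain ⟨C, hC0, hC⟩ := choice B
  refine ⟨4 * (B * (2 * C * ρ)) ^ 2, ?_⟩
  intro z1 z2
  obtain ⟨q, hq, m1, m2⟩ := hm (√z1.im) (z1.re / √z1.im) (√z2.im) (z2.re / √z2.im)
    (Real.sqrt_pos.2 z1.im_pos) (Real.sqrt_pos.2 z2.im_pos)
  have t1 : !![√z1.im, z1.re / √z1.im; 0, (√z1.im)⁻¹] =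
      ((z1.toSL2R : SL(2, ℝ)) : Matrix (Fin 2) (Fin 2) ℝ) := by
    rw [UpperHalfPlane.coe_toSL2R]
    simp
  have t2 : !![√z2.im, z2.re / √z2.im; 0, (√z2.im)⁻¹] =
      ((z2.toSL2R : SL(2, ℝ)) : Matrix (Fin 2) (Fin 2) ℝ) := by
    rw [UpperHalfPlane.coe_toSL2R]
    simp
  rw [t1] at m1
  rw [t2] at m2
  have hn0 : nrm q ≠ 0 := fun h => hq (aniso q h)
  have b1 : |s1 (nrm q)| ≤ B := by
    have := det_bound _ ρ hρ m1
    rw [Matrix.det_mul, M1_det, z1.toSL2R.det_coe, mul_one] at this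
    exact this.trans hB
  have b2 : |s2 (nrm q)| ≤ B := by
    have := det_bound _ ρ hρ m2
    rw [Matrix.det_mul, M2_det, z2.toSL2R.det_coe, mul_one] at this
    exact this.trans hB
  obtain ⟨q', d, hn, hd, c1, c2⟩ := hC q hn0 b1 b2
  set U : O := 1 + (3 : ℤ√2) • (cj q' * d) with hU
  have hprod : (nrm q) • U = cj q' * q := by
    have e : cj q' * q = cj q' * q' + (3 * nrm q) • (cj q' * d) := by
      conv_lhs => rw [hd]
      rw [mul_add, mul_smul_comm]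
    have e2 : (⟨nrm q', 0, 0, 0⟩ : O) = nrm q • (1 : O) := by
      rw [hn]
      ext <;> simp
    rw [e, cj_mul_self, hU, smul_add, smul_smul, e2, mul_comm (nrm q) 3]
  have hp1 : s1 (nrm q) • M1 U = M1 (cj q') * M1 q := by rw [← M1_smul, hprod, M1_mul]
  have hp2 : s2 (nrm q) • M2 U = M2 (cj q') * M2 q := by rw [← M2_smul, hprod, M2_mul]
  have hncj : nrm (cj q') = nrm q := by
    rw [← hn]; simp [nrm, cj]
  have l := lower (nrm q) hn0 B b1 b2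
  have ne1 : s1 (nrm q) ≠ 0 := fun h => hn0 (s1_inj (by rw [h, map_zero]))
  have ne2 : s2 (nrm q) ≠ 0 := fun h => hn0 (s2_inj (by rw [h, map_zero]))
  have d1 : (M1 U).det = 1 := det_one _ _ _ _ ne1 hp1 (by rw [M1_det, hncj]) (by rw [M1_det])
  have d2 : (M2 U).det = 1 := det_one _ _ _ _ ne2 hp2 (by rw [M2_det, hncj]) (by rw [M2_det])
  obtain ⟨g1, hg1⟩ : ∃ g : SL(2, ℝ), (g : Matrix (Fin 2) (Fin 2) ℝ) = M1 U := ⟨⟨M1 U, d1⟩, rfl⟩
  obtain ⟨g2, hg2⟩ : ∃ g : SL(2, ℝ), (g : Matrix (Fin 2) (Fin 2) ℝ) = M2 U := ⟨⟨M2 U, d2⟩, rfl⟩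
  refine ⟨(g1, g2), ⟨U, ⟨_, rfl⟩, hg1, hg2⟩, ?_, ?_⟩
  · change dist (g1 • z1) _ ≤ _
    have hg : g1 • z1 = (g1 * z1.toSL2R) • UpperHalfPlane.I := by
      rw [mul_smul, UpperHalfPlane.toSL2R_smul_I]
    rw [hg]
    apply J2c.ez_dist
    intro i j
    rw [Matrix.SpecialLinearGroup.coe_mul, hg1]
    exact scaled_bound _ _ _ _ _ B C ρ hC0 l.1 (Nat.cast_nonneg _) hp1 c1 m1 i j
  · change dist (g2 • z2) _ ≤ _
    have hg : g2 • z2 = (g2 * z2.toSL2R) • UpperHalfPlane.I := by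
      rw [mul_smul, UpperHalfPlane.toSL2R_smul_I]
    rw [hg]
    apply J2c.ez_dist
    intro i j
    rw [Matrix.SpecialLinearGroup.coe_mul, hg2]
    exact scaled_bound _ _ _ _ _ B C ρ hC0 l.2 (Nat.cast_nonneg _) hp2 c2 m2 i j

end Pool.Agent.R785.RO
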