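import Pool.Agent.R785.RO.Geo

set_option autoImplicit false

/-! Infinite cyclic groups and the stable centraliser of the mixed element. -/

namespace Pool.Agent.R785.RO

open Matrix UpperHalfPlane
open scoped MatrixGroups

theorem cyc {G : Type} [Group G] (ψ : G →* Multiplicative ℝ) (hinj : Function.Injective ψ)
    (hfin : {g : G | |Multiplicative.toAdd (ψ g)| ≤ 1}.Finite) (hne : ∃ g, ψ g ≠ 1) :
    Nonempty (G ≃* Multiplicative ℤ) := by
  let S : AddSubgroup ℝ :=
    { carrier := {r | ∃ g, Multiplicative.toAdd (ψ g) = r}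
      zero_mem' := ⟨1, by simp⟩
      add_mem' := by
        rintro _ _ ⟨g, rfl⟩ ⟨h, rfl⟩
        exact ⟨g * h, by simp⟩
      neg_mem' := by
        rintro _ ⟨g, rfl⟩
        exact ⟨g⁻¹, by simp⟩ }
  rcases AddSubgroup.dense_or_cyclic S with hd | ⟨a, ha⟩
  · exfalso
    have h1 := hd.open_subset_closure_inter (isOpen_Ioo (a := (-1 : ℝ)) (b := 1))
    have h2 : (Set.Ioo (-1 : ℝ) 1 ∩ (S : Set ℝ)).Finite := by
      refine (hfin.image fun g => Multiplicative.toAdd (ψ g)).subset ?_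
      rintro r ⟨⟨hr1, hr2⟩, g, rfl⟩
      exact ⟨g, abs_le.2 ⟨hr1.le, hr2.le⟩, rfl⟩
    rw [h2.isClosed.closure_eq] at h1
    exact (Set.Ioo_infinite (show (-1 : ℝ) < 1 by norm_num)) (h2.subset h1)
  · have haS : a ∈ S := by rw [ha]; exact AddSubgroup.subset_closure rfl
    obtain ⟨g0, hg0⟩ := haS
    have hmem : ∀ g, ∃ n : ℤ, n • a = Multiplicative.toAdd (ψ g) := by
      intro g
      have : Multiplicative.toAdd (ψ g) ∈ S := ⟨g, rfl⟩
      rw [ha, AddSubgroup.mem_closure_singleton] at this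
      exact this
    have ha0 : a ≠ 0 := by
      rintro rfl
      obtain ⟨g, hg⟩ := hne
      obtain ⟨n, hn⟩ := hmem g
      apply hg
      rw [smul_zero] at hn
      exact Multiplicative.toAdd.injective hn.symm
    have hpow : ∀ n : ℤ, Multiplicative.toAdd (ψ (g0 ^ n)) = n • a := by
      intro n
      rw [map_zpow, toAdd_zpow, hg0]
    refine ⟨(MulEquiv.ofBijective (zpowersHom G g0) ⟨?_, ?_⟩).symm⟩
    · rw [injective_iff_map_eq_one]
      intro n hn
      rw [zpowersHom_apply] at hn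
      have h1 := hpow (Multiplicative.toAdd n)
      rw [hn, map_one, toAdd_one] at h1
      have h2 := (smul_eq_zero.1 h1.symm).resolve_right ha0
      exact Multiplicative.toAdd.injective h2
    · intro g
      obtain ⟨n, hn⟩ := hmem g
      refine ⟨Multiplicative.ofAdd n, ?_⟩
      rw [zpowersHom_apply]
      apply hinj
      apply Multiplicative.toAdd.injective
      rw [toAdd_ofAdd, hpow, hn]

lemma pow_q0 (n : ℕ) : (q0 ^ n).imI = 0 ∧ (q0 ^ n).imK = 0 ∧
    s1 (q0 ^ n).re + be * s1 (q0 ^ n).imJ = (s1 q0.re + be * s1 q0.imJ) ^ n ∧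
    s1 (q0 ^ n).re - be * s1 (q0 ^ n).imJ = (s1 q0.re - be * s1 q0.imJ) ^ n := by
  induction n with
  | zero => simp
  | succ n ih =>
    obtain ⟨h1, h2, h3, h4⟩ := ih
    have e1 : q0.imI = 0 := rfl
    have e2 : q0.imK = 0 := rfl
    rw [pow_succ]
    have r1 : (q0 ^ n * q0).re = (q0 ^ n).re * q0.re + ⟨0, 1⟩ * ((q0 ^ n).imJ * q0.imJ) := by
      rw [QuaternionAlgebra.re_mul, h1, h2]; ring
    have r2 : (q0 ^ n * q0).imJ = (q0 ^ n).re * q0.imJ + (q0 ^ n).imJ * q0.re := by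
      rw [QuaternionAlgebra.imJ_mul, h1, h2]; ring
    refine ⟨?_, ?_, ?_, ?_⟩
    · rw [QuaternionAlgebra.imI_mul, h1, h2, e1, e2]; ring
    · rw [QuaternionAlgebra.imK_mul, h1, h2, e1, e2]; ring
    · rw [r1, r2, pow_succ, ← h3]
      simp only [map_add, map_mul, s1_s]
      ring
    · rw [r1, r2, pow_succ, ← h4]
      simp only [map_add, map_mul, s1_s]
      ring

lemma comm_q0 (n : ℕ) (hn : 1 ≤ n) (q : O) (h : q * q0 ^ n = q0 ^ n * q) :
    q.imI = 0 ∧ q.imK = 0 := by
  obtain ⟨h1, h2, h3, h4⟩ := pow_q0 n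
  obtain ⟨m1, m2, m3⟩ := q0_mu
  have hb := be_pos
  have hZ : s1 (q0 ^ n).imJ ≠ 0 := by
    intro h0
    rw [h0, mul_zero, add_zero] at h3
    rw [h0, mul_zero, sub_zero] at h4
    have k1 : 1 < (s1 q0.re + be * s1 q0.imJ) ^ n := one_lt_pow₀ m1 (by omega)
    have k2 : (s1 q0.re - be * s1 q0.imJ) ^ n ≤ 1 := pow_le_one₀ m3.le m2.le
    linarith
  have hs : (s1 ⟨0, 1⟩ : ℝ) ≠ 0 := by rw [s1_s]; positivity
  constructor
  · have := congrArg QuaternionAlgebra.imK h
    rw [QuaternionAlgebra.imK_mul, QuaternionAlgebra.imK_mul, h1, h2] at this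
    have k := congrArg s1 this
    simp only [map_add, map_sub, map_mul, map_zero] at k
    apply s1_inj
    rw [map_zero]
    have k2 : s1 q.imI * s1 (q0 ^ n).imJ = 0 := by linarith
    exact (mul_eq_zero.1 k2).resolve_right hZ
  · have := congrArg QuaternionAlgebra.imI h
    rw [QuaternionAlgebra.imI_mul, QuaternionAlgebra.imI_mul, h1, h2] at this
    have k := congrArg s1 this
    simp only [map_add, map_sub, map_mul, map_zero] at k
    apply s1_inj
    rw [map_zero]
    have k2 : s1 ⟨0, 1⟩ * (s1 q.imK * s1 (q0 ^ n).imJ) = 0 := by linarith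
    exact (mul_eq_zero.1 ((mul_eq_zero.1 k2).resolve_left hs)).resolve_right hZ

end Pool.Agent.R785.RO
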