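import Pool.Agent.R785.RO.Grp

set_option autoImplicit false

/-! Freeness and discreteness. -/

namespace Pool.Agent.R785.RO

open Matrix UpperHalfPlane
open scoped MatrixGroups
open Pool.Agent.Helper852.EZ

lemma nrm_cong (d : O) : nrm (1 + (3 : ℤ√2) • d) = 1 + 6 * d.re + 9 * nrm d := by
  simp only [nrm, QuaternionAlgebra.re_add, QuaternionAlgebra.imI_add, QuaternionAlgebra.imJ_add,
    QuaternionAlgebra.imK_add, QuaternionAlgebra.re_smul, QuaternionAlgebra.imI_smul,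
    QuaternionAlgebra.imJ_smul, QuaternionAlgebra.imK_smul, QuaternionAlgebra.re_one,
    QuaternionAlgebra.imI_one, QuaternionAlgebra.imJ_one, QuaternionAlgebra.imK_one, smul_eq_mul]
  ring

lemma nrm_of_det1 (g : SL(2, ℝ)) (q : O) (h : (g : Matrix (Fin 2) (Fin 2) ℝ) = M1 q) :
    nrm q = 1 := by
  apply s1_inj
  rw [← M1_det, ← h, g.det_coe, map_one]

lemma trace1 (g : SL(2, ℝ)) (q : O) (h : (g : Matrix (Fin 2) (Fin 2) ℝ) = M1 q) :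
    g 0 0 + g 1 1 = 2 * s1 q.re := by
  have h00 : g 0 0 = (M1 q) 0 0 := by rw [← h]
  have h11 : g 1 1 = (M1 q) 1 1 := by rw [← h]
  rw [h00, h11]
  simp [M1, mA]
  ring

lemma trace2 (g : SL(2, ℝ)) (q : O) (h : (g : Matrix (Fin 2) (Fin 2) ℝ) = M2 q) :
    g 0 0 + g 1 1 = 2 * s2 q.re := by
  have h00 : g 0 0 = (M2 q) 0 0 := by rw [← h]
  have h11 : g 1 1 = (M2 q) 1 1 := by rw [← h]
  rw [h00, h11]
  simp [M2, mB]
  ring

theorem free (g : SL(2, ℝ) × SL(2, ℝ)) (hg : g ∈ Gm) (z1 z2 : ℍ) (h1 : g.1 • z1 = z1)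
    (h2 : g.2 • z2 = z2) : g = 1 := by
  obtain ⟨q, ⟨d, hd⟩, e1, e2⟩ := hg
  have t1 : |g.1 0 0 + g.1 1 1| ≤ 2 := by
    by_contra hc
    exact J2a.no_fixed g.1 (not_le.1 hc) z1 h1
  have t2 : |g.2 0 0 + g.2 1 1| ≤ 2 := by
    by_contra hc
    exact J2a.no_fixed g.2 (not_le.1 hc) z2 h2
  rw [trace1 _ q e1, s1_apply] at t1
  rw [trace2 _ q e2, s2_apply] at t2
  have hn := nrm_of_det1 _ q e1
  rw [hd, nrm_cong] at hn
  have hre := congrArg Zsqrtd.re hn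
  have him := congrArg Zsqrtd.im hn
  simp at hre him
  obtain ⟨a, ha⟩ : (3 : ℤ) ∣ d.re.re := by omega
  obtain ⟨b, hb⟩ : (3 : ℤ) ∣ d.re.im := by omega
  have hqre : q.re.re = 1 + 9 * a := by rw [hd]; simp; omega
  have hqim : q.re.im = 9 * b := by rw [hd]; simp; omega
  rw [abs_le] at t1 t2
  have ha0 : a = 0 := by
    have k1 : |((1 + 9 * a : ℤ) : ℝ)| ≤ 1 := by
      rw [← hqre, abs_le]
      constructor <;> linarith
    have k2 : |1 + 9 * a| ≤ 1 := by exact_mod_cast k1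
    rw [abs_le] at k2
    omega
  have hb0 : b = 0 := by
    have k1 : |((9 * b : ℤ) : ℝ) * √2| ≤ 1 := by
      rw [← hqim, abs_le]
      constructor <;> linarith
    by_contra hb0
    have k2 : (1 : ℝ) ≤ |(b : ℝ)| := by
      have : 1 ≤ |b| := Int.one_le_abs hb0
      exact_mod_cast this
    rw [abs_mul, abs_of_pos r2_pos] at k1
    push_cast at k1
    rw [abs_mul] at k1
    norm_num at k1
    have := r2_gt
    nlinarith
  subst ha0 hb0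
  have hx : d.re = 0 := by
    apply Zsqrtd.ext
    · simp; omega
    · simp; omega
  have hn0 : nrm d = 0 := by
    rw [hx] at hn
    have : (9 : ℤ√2) * nrm d = 0 := by linear_combination hn
    apply Zsqrtd.ext
    · have := congrArg Zsqrtd.re this
      simp at this ⊢
      omega
    · have := congrArg Zsqrtd.im this
      simp at this ⊢
      omega
  have hd0 : d = 0 := aniso d hn0
  rw [hd0, smul_zero, add_zero] at hd
  subst hd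
  rw [M1_one] at e1
  rw [M2_one] at e2
  apply Prod.ext
  · apply Subtype.ext; rw [e1]; rfl
  · apply Subtype.ext; rw [e2]; rfl

/-- Boundedness of the coordinates. -/
lemma sq_bound (N : ℕ) (t : Rt) (h1 : s1 t ^ 2 ≤ N) (h2 : s2 t ^ 2 ≤ N) :
    t.re ∈ Set.Icc (-N : ℤ) N ∧ t.im ∈ Set.Icc (-N : ℤ) N := by
  rw [s1_apply] at h1
  rw [s2_apply] at h2
  have h := r2_sq
  have k : ((t.re : ℝ) ^ 2 + 2 * (t.im : ℝ) ^ 2) ≤ N := by nlinarith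
  have k' : t.re ^ 2 + 2 * t.im ^ 2 ≤ (N : ℤ) := by exact_mod_cast k
  have key : ∀ t : ℤ, t ^ 2 ≤ N → t ∈ Set.Icc (-N : ℤ) N := by
    intro t ht
    rw [Set.mem_Icc]
    constructor <;> nlinarith
  exact ⟨key _ (by nlinarith), key _ (by nlinarith)⟩

/-- the set of quaternions with coordinates bounded by `N` is finite -/
theorem box_finite (N : ℕ) : {q : O | (s1 q.re ^ 2 ≤ N ∧ s2 q.re ^ 2 ≤ N) ∧
    (s1 q.imI ^ 2 ≤ N ∧ s2 q.imI ^ 2 ≤ N) ∧ (s1 q.imJ ^ 2 ≤ N ∧ s2 q.imJ ^ 2 ≤ N) ∧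
    (s1 q.imK ^ 2 ≤ N ∧ s2 q.imK ^ 2 ≤ N)}.Finite := by
  have hf : (Set.Icc (-N : ℤ) N ×ˢ Set.Icc (-N : ℤ) N).Finite :=
    (Set.finite_Icc _ _).prod (Set.finite_Icc _ _)
  have hF := (hf.prod (hf.prod (hf.prod hf))).image
    (fun p : (ℤ × ℤ) × (ℤ × ℤ) × (ℤ × ℤ) × (ℤ × ℤ) =>
      (⟨⟨p.1.1, p.1.2⟩, ⟨p.2.1.1, p.2.1.2⟩, ⟨p.2.2.1.1, p.2.2.1.2⟩, ⟨p.2.2.2.1, p.2.2.2.2⟩⟩ : O))
  refine hF.subset ?_
  rintro q ⟨⟨a1, a2⟩, ⟨b1, b2⟩, ⟨c1, c2⟩, ⟨d1, d2⟩⟩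
  refine ⟨((q.re.re, q.re.im), (q.imI.re, q.imI.im), (q.imJ.re, q.imJ.im), (q.imK.re, q.imK.im)),
    ⟨sq_bound N _ a1 a2, sq_bound N _ b1 b2, sq_bound N _ c1 c2, sq_bound N _ d1 d2⟩, rfl⟩

/-- The sum of the squares of the entries. -/
def ss (A : Matrix (Fin 2) (Fin 2) ℝ) : ℝ := A 0 0 ^ 2 + A 0 1 ^ 2 + A 1 0 ^ 2 + A 1 1 ^ 2

lemma ss_bound (N : ℕ) (q : O) (h1 : ss (M1 q) ≤ N) (h2 : ss (M2 q) ≤ N) :
    (s1 q.re ^ 2 ≤ N ∧ s2 q.re ^ 2 ≤ N) ∧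
    (s1 q.imI ^ 2 ≤ N ∧ s2 q.imI ^ 2 ≤ N) ∧ (s1 q.imJ ^ 2 ≤ N ∧ s2 q.imJ ^ 2 ≤ N) ∧
    (s1 q.imK ^ 2 ≤ N ∧ s2 q.imK ^ 2 ≤ N) := by
  have h5 := r5_sq
  have hb := be_sq
  have h2' := r2_gt
  have e1 : ss (M1 q) = 2 * s1 q.re ^ 2 + 2 * √2 * s1 q.imJ ^ 2 + 10 * s1 q.imI ^ 2 +
      10 * √2 * s1 q.imK ^ 2 := by
    simp only [ss, M1, mA, Matrix.of_apply, Matrix.cons_val', Matrix.cons_val_zero,
      Matrix.cons_val_one, Matrix.cons_val_fin_one]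
    linear_combination (2 * s1 q.imI ^ 2 + 2 * be * be * s1 q.imK ^ 2) * h5 +
      (2 * s1 q.imJ ^ 2 + 10 * s1 q.imK ^ 2) * hb
  have e2 : ss (M2 q) = 2 * s2 q.re ^ 2 + 2 * √2 * s2 q.imJ ^ 2 + 10 * s2 q.imI ^ 2 +
      10 * √2 * s2 q.imK ^ 2 := by
    simp only [ss, M2, mB, Matrix.of_apply, Matrix.cons_val', Matrix.cons_val_zero,
      Matrix.cons_val_one, Matrix.cons_val_fin_one]
    linear_combination (2 * s2 q.imI ^ 2 + 2 * be * be * s2 q.imK ^ 2) * h5 +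
      (2 * s2 q.imJ ^ 2 + 10 * s2 q.imK ^ 2) * hb
  rw [e1] at h1
  rw [e2] at h2
  have a1 := sq_nonneg (s1 q.re)
  have a2 := sq_nonneg (s2 q.re)
  have b1 := sq_nonneg (s1 q.imI)
  have b2 := sq_nonneg (s2 q.imI)
  have c1 := sq_nonneg (s1 q.imJ)
  have c2 := sq_nonneg (s2 q.imJ)
  have d1 := sq_nonneg (s1 q.imK)
  have d2 := sq_nonneg (s2 q.imK)
  have c1' := mul_le_mul_of_nonneg_right h2'.le c1
  have c2' := mul_le_mul_of_nonneg_right h2'.le c2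
  have d1' := mul_le_mul_of_nonneg_right h2'.le d1
  have d2' := mul_le_mul_of_nonneg_right h2'.le d2
  refine ⟨⟨?_, ?_⟩, ⟨?_, ?_⟩, ⟨?_, ?_⟩, ⟨?_, ?_⟩⟩ <;> linarith

/-- Discreteness. -/
theorem finite_ball (R : ℝ) : {g : SL(2, ℝ) × SL(2, ℝ) | g ∈ Gm ∧
    dist (g.1 • (UpperHalfPlane.I : ℍ)) UpperHalfPlane.I ≤ R ∧
    dist (g.2 • (UpperHalfPlane.I : ℍ)) UpperHalfPlane.I ≤ R}.Finite := by
  obtain ⟨N, hN⟩ := exists_nat_ge (2 * Real.cosh R)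
  have hfin := (box_finite N).image (fun q : O => (M1 q, M2 q))
  have hinj : Function.Injective (fun g : SL(2, ℝ) × SL(2, ℝ) =>
      ((g.1 : Matrix (Fin 2) (Fin 2) ℝ), (g.2 : Matrix (Fin 2) (Fin 2) ℝ))) := by
    intro a b h
    simp only [Prod.mk.injEq] at h
    exact Prod.ext (Subtype.ext h.1) (Subtype.ext h.2)
  refine (hfin.preimage hinj.injOn).subset ?_
  rintro g ⟨⟨q, -, e1, e2⟩, h1, h2⟩
  refine ⟨q, ss_bound N q ?_ ?_, by simp only [e1, e2]⟩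
  · have k : Real.cosh (dist (g.1 • (UpperHalfPlane.I : ℍ)) UpperHalfPlane.I) ≤ Real.cosh R := by
      rw [Real.cosh_le_cosh, abs_of_nonneg dist_nonneg, abs_of_nonneg (dist_nonneg.trans h1)]
      exact h1
    rw [J2a.cosh_I] at k
    rw [← e1]
    unfold ss
    linarith
  · have k : Real.cosh (dist (g.2 • (UpperHalfPlane.I : ℍ)) UpperHalfPlane.I) ≤ Real.cosh R := by
      rw [Real.cosh_le_cosh, abs_of_nonneg dist_nonneg, abs_of_nonneg (dist_nonneg.trans h2)]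
      exact h2
    rw [J2a.cosh_I] at k
    rw [← e2]
    unfold ss
    linarith

end Pool.Agent.R785.RO
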