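import Pool.Agent.R785.RO.Coc

set_option autoImplicit false

/-! Geometry of the product of two hyperbolic planes; the mixed element. -/

namespace Pool.Agent.R785.RO

open Matrix UpperHalfPlane
open scoped MatrixGroups

/-- The product of two hyperbolic planes, with the `L²` product of the hyperbolic distances. -/
abbrev HH : Type := WithLp 2 (ℍ × ℍ)

/-- A pair of matrices acts on the product of two hyperbolic planes by Möbius transformations. -/
noncomputable def act (g : SL(2, ℝ) × SL(2, ℝ)) (x : HH) : HH :=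
  WithLp.toLp 2 (g.1 • x.fst, g.2 • x.snd)

lemma dist_HH (x y : HH) : dist x y = √(dist x.fst y.fst ^ 2 + dist x.snd y.snd ^ 2) := by
  rw [WithLp.prod_dist_eq_add (by norm_num), Real.sqrt_eq_rpow]
  norm_num

lemma act_one (x : HH) : act 1 x = x := by
  change WithLp.toLp 2 ((1 : SL(2, ℝ)) • x.fst, (1 : SL(2, ℝ)) • x.snd) = x
  rw [one_smul, one_smul]
  rfl

lemma act_mul (g h : SL(2, ℝ) × SL(2, ℝ)) (x : HH) : act (g * h) x = act g (act h x) := by
  simp [act, mul_smul]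

lemma dist_act (g : SL(2, ℝ) × SL(2, ℝ)) (x y : HH) : dist (act g x) (act g y) = dist x y := by
  rw [dist_HH, dist_HH]
  change √(dist (g.1 • x.fst) (g.1 • y.fst) ^ 2 + dist (g.2 • x.snd) (g.2 • y.snd) ^ 2) = _
  rw [dist_smul, dist_smul]

lemma fst_le (x y : HH) : dist x.fst y.fst ≤ dist x y := by
  rw [dist_HH]
  apply Real.le_sqrt_of_sq_le
  nlinarith [sq_nonneg (dist x.snd y.snd)]

lemma snd_le (x y : HH) : dist x.snd y.snd ≤ dist x y := by
  rw [dist_HH]
  apply Real.le_sqrt_of_sq_le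
  nlinarith [sq_nonneg (dist x.fst y.fst)]

theorem free' (g : SL(2, ℝ) × SL(2, ℝ)) (hg : g ∈ Gm) (x : HH) (h : act g x = x) : g = 1 := by
  apply free g hg x.fst x.snd
  · exact congrArg WithLp.fst h
  · exact congrArg WithLp.snd h

theorem pd (K : Set HH) (hK : IsCompact K) :
    {g : SL(2, ℝ) × SL(2, ℝ) | g ∈ Gm ∧ (act g '' K ∩ K).Nonempty}.Finite := by
  set o : HH := WithLp.toLp 2 (UpperHalfPlane.I, UpperHalfPlane.I) with ho
  obtain ⟨R, hR⟩ := hK.isBounded.subset_closedBall o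
  refine (finite_ball (2 * R)).subset ?_
  rintro g ⟨hg, _, ⟨x, hx, rfl⟩, hy⟩
  have h1 : dist x o ≤ R := hR hx
  have h2 : dist (act g x) o ≤ R := hR hy
  have h3 : dist (act g o) o ≤ 2 * R := by
    calc dist (act g o) o ≤ dist (act g o) (act g x) + dist (act g x) o := dist_triangle _ _ _
      _ = dist x o + dist (act g x) o := by rw [dist_act, dist_comm]
      _ ≤ 2 * R := by linarith
  exact ⟨hg, (fst_le (act g o) o).trans h3, (snd_le (act g o) o).trans h3⟩

theorem coc : ∃ K : Set HH, IsCompact K ∧ ∀ x, ∃ g ∈ Gm, act g x ∈ K := by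
  obtain ⟨D, hD⟩ := cocompact
  refine ⟨WithLp.toLp 2 '' (Metric.closedBall UpperHalfPlane.I D ×ˢ
    Metric.closedBall UpperHalfPlane.I D), ?_, ?_⟩
  · exact ((isCompact_closedBall _ _).prod (isCompact_closedBall _ _)).image
      (WithLp.prod_continuous_toLp 2 ℍ ℍ)
  · intro x
    obtain ⟨g, hg, h1, h2⟩ := hD x.fst x.snd
    exact ⟨g, hg, ⟨(g.1 • x.fst, g.2 • x.snd), ⟨h1, h2⟩, rfl⟩⟩

/-- points on the imaginary axis -/
noncomputable def pt (t : ℝ) : ℍ := UpperHalfPlane.mk ⟨0, Real.exp t⟩ (Real.exp_pos t)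

lemma pt_re (t : ℝ) : (pt t).re = 0 := rfl
lemma pt_im (t : ℝ) : (pt t).im = Real.exp t := rfl
lemma pt_coe (t : ℝ) : ((pt t : ℍ) : ℂ) = ⟨0, Real.exp t⟩ := rfl

lemma dist_pt (s t : ℝ) : dist (pt s) (pt t) = |s - t| := by
  rw [UpperHalfPlane.dist_of_re_eq (by rw [pt_re, pt_re]), pt_im, pt_im, Real.log_exp,
    Real.log_exp, Real.dist_eq]

/-- the axis -/
noncomputable def ax (t : ℝ) : HH := WithLp.toLp 2 (pt t, pt 0)

lemma dist_flat (s t s' t' : ℝ) : dist (WithLp.toLp 2 (pt s, pt t) : HH) (WithLp.toLp 2 (pt s', pt t')) =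
    √((s - s') ^ 2 + (t - t') ^ 2) := by
  rw [dist_HH]
  change √(dist (pt s) (pt s') ^ 2 + dist (pt t) (pt t') ^ 2) = _
  rw [dist_pt, dist_pt, sq_abs, sq_abs]

lemma isometry_ax : Isometry ax := by
  apply Isometry.of_dist_eq
  intro s t
  rw [ax, ax, dist_flat, sub_self, Real.dist_eq]
  simp [Real.sqrt_sq_eq_abs]

/-- A quaternion of norm one commuting with `j` translates the axis. -/
lemma translate (g : SL(2, ℝ) × SL(2, ℝ)) (q : O) (e1 : (g.1 : Matrix (Fin 2) (Fin 2) ℝ) = M1 q)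
    (e2 : (g.2 : Matrix (Fin 2) (Fin 2) ℝ) = M2 q) (hi : q.imI = 0) (hk : q.imK = 0) (t : ℝ) :
    act g (ax t) = ax (t + Real.log ((s1 q.re + be * s1 q.imJ) ^ 2)) := by
  have hn := nrm_of_det1 _ q e1
  have hb := be_sq
  have n1 : (s1 q.re + be * s1 q.imJ) * (s1 q.re - be * s1 q.imJ) = 1 := by
    have := congrArg s1 hn
    simp only [nrm, hi, hk, map_add, map_sub, map_mul, map_zero, map_one, s1_s] at this
    linear_combination this
  have n2 : s2 q.re * s2 q.re + be * be * (s2 q.imJ * s2 q.imJ) = 1 := by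
    have := congrArg s2 hn
    simp only [nrm, hi, hk, map_add, map_sub, map_mul, map_zero, map_one, s2_s] at this
    linear_combination this
  have ent1 : ∀ i j, g.1 i j = M1 q i j := fun i j => by rw [← e1]
  have ent2 : ∀ i j, g.2 i j = M2 q i j := fun i j => by rw [← e2]
  have hμ : s1 q.re + be * s1 q.imJ ≠ 0 := left_ne_zero_of_mul_eq_one n1
  have hν : s1 q.re - be * s1 q.imJ ≠ 0 := right_ne_zero_of_mul_eq_one n1
  have a1 : g.1 • pt t = pt (t + Real.log ((s1 q.re + be * s1 q.imJ) ^ 2)) := by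
    apply UpperHalfPlane.ext
    rw [UpperHalfPlane.coe_specialLinearGroup_apply]
    have h00 : (g.1 0 0 : ℝ) = s1 q.re + be * s1 q.imJ := by rw [ent1]; simp [M1, mA]
    have h01 : (g.1 0 1 : ℝ) = 0 := by rw [ent1]; simp [M1, mA, hi, hk]
    have h10 : (g.1 1 0 : ℝ) = 0 := by rw [ent1]; simp [M1, mA, hi, hk]
    have h11 : (g.1 1 1 : ℝ) = s1 q.re - be * s1 q.imJ := by rw [ent1]; simp [M1, mA]
    rw [h00, h01, h10, h11, pt_coe, pt_coe, Real.exp_add, Real.exp_log (by positivity)]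
    generalize s1 q.re + be * s1 q.imJ = μ at *
    generalize s1 q.re - be * s1 q.imJ = ν at *
    have hν' : (ν : ℂ) ≠ 0 := by exact_mod_cast hν
    have e : ((algebraMap ℝ ℝ) 0 : ℂ) = 0 := by simp
    simp only [Complex.ofReal_zero, zero_mul, zero_add, add_zero, Algebra.algebraMap_self,
      RingHom.id_apply]
    rw [div_eq_iff hν']
    have n1' : (μ : ℂ) * ν = 1 := by exact_mod_cast n1
    apply Complex.ext
    · simp
    · simp
      linear_combination (-(μ * Real.exp t)) * n1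
  have a2 : g.2 • pt 0 = pt 0 := by
    apply UpperHalfPlane.ext
    rw [UpperHalfPlane.coe_specialLinearGroup_apply]
    have h00 : (g.2 0 0 : ℝ) = s2 q.re := by rw [ent2]; simp [M2, mB, hi]
    have h01 : (g.2 0 1 : ℝ) = -(be * s2 q.imJ) := by rw [ent2]; simp [M2, mB, hk]
    have h10 : (g.2 1 0 : ℝ) = be * s2 q.imJ := by rw [ent2]; simp [M2, mB, hk]
    have h11 : (g.2 1 1 : ℝ) = s2 q.re := by rw [ent2]; simp [M2, mB, hi]
    have hal : ∀ r : ℝ, (algebraMap ℝ ℝ) r = r := fun r => rfl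
    simp only [hal]
    rw [h00, h01, h10, h11, pt_coe, Real.exp_zero]
    generalize hz : be * s2 q.imJ = z at *
    have n2' : s2 q.re * s2 q.re + z * z = 1 := by
      rw [← hz]; linear_combination n2
    generalize s2 q.re = x at *
    have hne : (z : ℂ) * ⟨0, 1⟩ + (x : ℂ) ≠ 0 := by
      intro h
      have h1 := congrArg Complex.re h
      have h2 := congrArg Complex.im h
      simp at h1 h2
      rw [h1, h2] at n2'
      norm_num at n2'
    rw [div_eq_iff hne]
    apply Complex.ext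
    · simp
    · simp
  change WithLp.toLp 2 (g.1 • pt t, g.2 • pt 0) = _
  rw [a1, a2]
  rfl

/-- the mixed quaternion -/
def q0 : O := ⟨⟨80303617, 56783232⟩, 0, ⟨67527024, 47748816⟩, 0⟩

lemma q0_cong : Cong q0 := by
  refine ⟨⟨⟨26767872, 18927744⟩, 0, ⟨22509008, 15916272⟩, 0⟩, ?_⟩
  ext <;> simp [q0]

lemma q0_nrm : nrm q0 = 1 := by
  ext <;> simp [nrm, q0]

lemma exists_g0 : ∃ g : SL(2, ℝ) × SL(2, ℝ), g ∈ Gm ∧ (g.1 : Matrix (Fin 2) (Fin 2) ℝ) = M1 q0 ∧
    (g.2 : Matrix (Fin 2) (Fin 2) ℝ) = M2 q0 := by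
  have h1 : (M1 q0).det = 1 := by rw [M1_det, q0_nrm, map_one]
  have h2 : (M2 q0).det = 1 := by rw [M2_det, q0_nrm, map_one]
  exact ⟨(⟨M1 q0, h1⟩, ⟨M2 q0, h2⟩), ⟨q0, q0_cong, rfl, rfl⟩, rfl, rfl⟩

lemma q0_mu : 1 < s1 q0.re + be * s1 q0.imJ ∧ s1 q0.re - be * s1 q0.imJ < 1 ∧
    0 < s1 q0.re - be * s1 q0.imJ := by
  have hr := r2_pos
  have hb := be_pos
  have n1 : (s1 q0.re + be * s1 q0.imJ) * (s1 q0.re - be * s1 q0.imJ) = 1 := by
    have := congrArg s1 q0_nrm
    simp only [nrm, map_add, map_sub, map_mul, map_one, s1_s] at this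
    have e1 : s1 q0.imI = 0 := by simp [q0]
    have e2 : s1 q0.imK = 0 := by simp [q0]
    rw [e1, e2] at this
    linear_combination this
  have h1 : 1 < s1 q0.re + be * s1 q0.imJ := by
    rw [s1_apply, s1_apply]
    simp only [q0]
    push_cast
    have : 0 < be * ((67527024 : ℝ) + 47748816 * √2) := by positivity
    nlinarith
  have h2 : 0 < s1 q0.re - be * s1 q0.imJ := by
    by_contra hc
    nlinarith
  refine ⟨h1, ?_, h2⟩
  nlinarith

end Pool.Agent.R785.RO
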