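import Pool.Agent.R785.RO.Base
import Pool.Agent.Helper852.EZ.J2a

set_option autoImplicit false

/-! The group and its discreteness and freeness. -/

namespace Pool.Agent.R785.RO

open Matrix
open scoped MatrixGroups

/-- congruent to one modulo three -/
def Cong (q : O) : Prop := ∃ d : O, q = 1 + (3 : ℤ√2) • d

lemma cong_one : Cong 1 := ⟨0, by simp⟩

lemma cong_mul {p q : O} (hp : Cong p) (hq : Cong q) : Cong (p * q) := by
  obtain ⟨d, rfl⟩ := hp
  obtain ⟨e, rfl⟩ := hq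
  refine ⟨d + e + (3 : ℤ√2) • (d * e), ?_⟩
  rw [add_mul, mul_add, mul_add, one_mul, mul_one, one_mul, smul_mul_smul_comm, smul_add, smul_add,
    smul_smul]
  abel

/-- the conjugate -/
def cj (q : O) : O := ⟨q.re, -q.imI, -q.imJ, -q.imK⟩

lemma cj_mul_self (q : O) : cj q * q = ⟨nrm q, 0, 0, 0⟩ := by
  ext <;> simp [cj, nrm] <;> ring

lemma cong_cj {q : O} (hq : Cong q) : Cong (cj q) := by
  obtain ⟨d, rfl⟩ := hq
  exact ⟨cj d, by ext <;> simp [cj]⟩

lemma M1_cj (q : O) : M1 (cj q) = (M1 q).adjugate := by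
  simp only [M1, mA, cj, Matrix.adjugate_fin_two_of, map_neg]
  ext i j
  fin_cases i <;> fin_cases j <;> simp <;> ring

lemma M2_cj (q : O) : M2 (cj q) = (M2 q).adjugate := by
  simp only [M2, mB, cj, Matrix.adjugate_fin_two_of, map_neg]
  ext i j
  fin_cases i <;> fin_cases j <;> simp <;> ring

lemma M1_one : M1 1 = 1 := by
  ext i j
  fin_cases i <;> fin_cases j <;> simp [M1, mA]

lemma M2_one : M2 1 = 1 := by
  ext i j
  fin_cases i <;> fin_cases j <;> simp [M2, mB]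

/-- The group: quaternions of norm one which are congruent to one modulo three, as pairs of real
matrices -/
def Gm : Subgroup (SL(2, ℝ) × SL(2, ℝ)) where
  carrier := {g | ∃ q : O, Cong q ∧ (g.1 : Matrix (Fin 2) (Fin 2) ℝ) = M1 q ∧
    (g.2 : Matrix (Fin 2) (Fin 2) ℝ) = M2 q}
  one_mem' := ⟨1, cong_one, by simp [M1_one], by simp [M2_one]⟩
  mul_mem' := by
    rintro a b ⟨p, hp, h1, h2⟩ ⟨q, hq, h1', h2'⟩
    refine ⟨p * q, cong_mul hp hq, ?_, ?_⟩
    · rw [Prod.fst_mul, Matrix.SpecialLinearGroup.coe_mul, h1, h1', M1_mul]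
    · rw [Prod.snd_mul, Matrix.SpecialLinearGroup.coe_mul, h2, h2', M2_mul]
  inv_mem' := by
    rintro a ⟨p, hp, h1, h2⟩
    refine ⟨cj p, cong_cj hp, ?_, ?_⟩
    · rw [Prod.fst_inv, Matrix.SpecialLinearGroup.coe_inv, h1, M1_cj]
    · rw [Prod.snd_inv, Matrix.SpecialLinearGroup.coe_inv, h2, M2_cj]

lemma s1_inj : Function.Injective s1 := by
  apply Zsqrtd.lift_injective
  intro n hn
  have h1 : n * n = 2 := hn.symm
  have h2 : n ≤ 1 := by nlinarith
  have h3 : -1 ≤ n := by nlinarith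
  interval_cases n <;> omega

lemma s2_inj : Function.Injective s2 := by
  apply Zsqrtd.lift_injective
  intro n hn
  have h1 : n * n = 2 := hn.symm
  have h2 : n ≤ 1 := by nlinarith
  have h3 : -1 ≤ n := by nlinarith
  interval_cases n <;> omega

lemma M1_inj : Function.Injective M1 := by
  intro p q h
  have h00 := congrFun (congrFun h 0) 0
  have h01 := congrFun (congrFun h 0) 1
  have h10 := congrFun (congrFun h 1) 0
  have h11 := congrFun (congrFun h 1) 1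
  simp only [M1, mA, Matrix.of_apply, Matrix.cons_val', Matrix.cons_val_zero, Matrix.cons_val_one,
    Matrix.cons_val_fin_one] at h00 h01 h10 h11
  have h5 := r5_pos
  have hb := be_pos
  have e01 := mul_left_cancel₀ h5.ne' h01
  have e10 := mul_left_cancel₀ h5.ne' h10
  have ex : s1 p.re = s1 q.re := by linarith
  have ey : s1 p.imI = s1 q.imI := by linarith
  have ez : be * s1 p.imJ = be * s1 q.imJ := by linarith
  have ew : be * s1 p.imK = be * s1 q.imK := by linarith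
  have ez' := mul_left_cancel₀ hb.ne' ez
  have ew' := mul_left_cancel₀ hb.ne' ew
  exact QuaternionAlgebra.ext (s1_inj ex) (s1_inj ey) (s1_inj ez') (s1_inj ew')

lemma mod5 : ∀ a b c d : ZMod 5, a * a + 2 * (b * b) - 4 * (c * d) = 0 →
    2 * (a * b) - (c * c + 2 * (d * d)) = 0 → a = 0 ∧ b = 0 ∧ c = 0 ∧ d = 0 := by
  decide

lemma dvd5 (a b c d e f : ℤ) (h1 : a * a + 2 * (b * b) - 4 * (c * d) = 5 * e)
    (h2 : 2 * (a * b) - (c * c + 2 * (d * d)) = 5 * f) :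
    (5 : ℤ) ∣ a ∧ (5 : ℤ) ∣ b ∧ (5 : ℤ) ∣ c ∧ (5 : ℤ) ∣ d := by
  have h5 : (5 : ZMod 5) = 0 := rfl
  have k1 := congrArg (Int.cast : ℤ → ZMod 5) h1
  have k2 := congrArg (Int.cast : ℤ → ZMod 5) h2
  push_cast at k1 k2
  rw [h5, zero_mul] at k1 k2
  obtain ⟨g1, g2, g3, g4⟩ := mod5 _ _ _ _ k1 k2
  have key : ∀ t : ℤ, (t : ZMod 5) = 0 → (5 : ℤ) ∣ t := fun t ht =>
    (ZMod.intCast_zmod_eq_zero_iff_dvd t 5).1 ht
  exact ⟨key _ g1, key _ g2, key _ g3, key _ g4⟩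

/-- the norm form in integer coordinates -/
theorem aniso_aux (k : ℕ) : ∀ a b c d e f g h : ℤ,
    a * a + 2 * (b * b) - 4 * (e * f) = 5 * (c * c + 2 * (d * d) - 4 * (g * h)) →
    2 * (a * b) - (e * e + 2 * (f * f)) = 5 * (2 * (c * d) - (g * g + 2 * (h * h))) →
    (5 : ℤ) ^ k ∣ a ∧ (5 : ℤ) ^ k ∣ b ∧ (5 : ℤ) ^ k ∣ c ∧ (5 : ℤ) ^ k ∣ d ∧
    (5 : ℤ) ^ k ∣ e ∧ (5 : ℤ) ^ k ∣ f ∧ (5 : ℤ) ^ k ∣ g ∧ (5 : ℤ) ^ k ∣ h := by
  induction k with
  | zero =>
    intro a b c d e f g h _ _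
    simp
  | succ n ih =>
    intro a b c d e f g h h1 h2
    obtain ⟨⟨a', rfl⟩, ⟨b', rfl⟩, ⟨e', rfl⟩, ⟨f', rfl⟩⟩ := dvd5 _ _ _ _ _ _ h1 h2
    have h1' : c * c + 2 * (d * d) - 4 * (g * h) =
        5 * (a' * a' + 2 * (b' * b') - 4 * (e' * f')) := by linarith
    have h2' : 2 * (c * d) - (g * g + 2 * (h * h)) =
        5 * (2 * (a' * b') - (e' * e' + 2 * (f' * f'))) := by linarith
    obtain ⟨⟨c', rfl⟩, ⟨d', rfl⟩, ⟨g', rfl⟩, ⟨h', rfl⟩⟩ := dvd5 _ _ _ _ _ _ h1' h2'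
    have h1'' : a' * a' + 2 * (b' * b') - 4 * (e' * f') =
        5 * (c' * c' + 2 * (d' * d') - 4 * (g' * h')) := by linarith
    have h2'' : 2 * (a' * b') - (e' * e' + 2 * (f' * f')) =
        5 * (2 * (c' * d') - (g' * g' + 2 * (h' * h'))) := by linarith
    obtain ⟨g1, g2, g3, g4, g5, g6, g7, g8⟩ := ih a' b' c' d' e' f' g' h' h1'' h2''
    simp only [pow_succ']
    exact ⟨mul_dvd_mul_left _ g1, mul_dvd_mul_left _ g2, mul_dvd_mul_left _ g3,
      mul_dvd_mul_left _ g4, mul_dvd_mul_left _ g5, mul_dvd_mul_left _ g6,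
      mul_dvd_mul_left _ g7, mul_dvd_mul_left _ g8⟩

lemma zero_of_pow (a : ℤ) (h : ∀ k : ℕ, (5 : ℤ) ^ k ∣ a) : a = 0 := by
  apply Int.eq_zero_of_abs_lt_dvd (h a.natAbs)
  rw [Int.abs_eq_natAbs]
  have : a.natAbs < 5 ^ a.natAbs := Nat.lt_pow_self (by norm_num)
  exact_mod_cast this

/-- The quaternion algebra is a division algebra. -/
theorem aniso (q : O) (h : nrm q = 0) : q = 0 := by
  have hre := congrArg Zsqrtd.re h
  have him := congrArg Zsqrtd.im h
  simp [nrm] at hre him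
  have := fun k => aniso_aux k q.re.re q.re.im q.imI.re q.imI.im q.imJ.re q.imJ.im q.imK.re q.imK.im
    (by linarith) (by linarith)
  ext
  · exact zero_of_pow _ fun k => (this k).1
  · exact zero_of_pow _ fun k => (this k).2.1
  · exact zero_of_pow _ fun k => (this k).2.2.1
  · exact zero_of_pow _ fun k => (this k).2.2.2.1
  · exact zero_of_pow _ fun k => (this k).2.2.2.2.1
  · exact zero_of_pow _ fun k => (this k).2.2.2.2.2.1
  · exact zero_of_pow _ fun k => (this k).2.2.2.2.2.2.1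
  · exact zero_of_pow _ fun k => (this k).2.2.2.2.2.2.2

end Pool.Agent.R785.RO
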