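import Pool.Agent.R785.RO.Free

set_option autoImplicit false

/-! Minkowski's theorem. -/

namespace Pool.Agent.R785.RO

open Matrix UpperHalfPlane

/-- the base map -/
noncomputable def baseF (v : Fin 8 → ℝ) : Fin 8 → ℝ :=
  ![(v 0 + v 1 * √2) + be * (v 4 + v 5 * √2), √5 * ((v 2 + v 3 * √2) - be * (v 6 + v 7 * √2)),
    √5 * ((v 2 + v 3 * √2) + be * (v 6 + v 7 * √2)), (v 0 + v 1 * √2) - be * (v 4 + v 5 * √2),
    (v 0 - v 1 * √2) + √5 * (v 2 - v 3 * √2), -(be * ((v 4 - v 5 * √2) + √5 * (v 6 - v 7 * √2))),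
    be * ((v 4 - v 5 * √2) - √5 * (v 6 - v 7 * √2)), (v 0 - v 1 * √2) - √5 * (v 2 - v 3 * √2)]

/-- the base map as a linear map -/
noncomputable def base : (Fin 8 → ℝ) →ₗ[ℝ] (Fin 8 → ℝ) where
  toFun := baseF
  map_add' u v := by
    funext i
    fin_cases i <;> simp [baseF] <;> ring
  map_smul' c v := by
    funext i
    fin_cases i <;> simp [baseF] <;> ring

lemma base_apply (v : Fin 8 → ℝ) : base v = baseF v := rfl

lemma base_inj : Function.Injective base := by
  rw [injective_iff_map_eq_zero]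
  intro v hv
  have h : ∀ i, baseF v i = 0 := fun i => by rw [← base_apply, hv]; rfl
  have h0 := h 0
  have h1 := h 1
  have h2 := h 2
  have h3 := h 3
  have h4 := h 4
  have h5 := h 5
  have h6 := h 6
  have h7 := h 7
  simp [baseF] at h0 h1 h2 h3 h4 h5 h6 h7
  have r2 := r2_pos
  have r5 := r5_pos
  have hb := be_pos
  have k1 := h1
  have k2 := h2
  have k5 : be * ((v 4 - v 5 * √2) + √5 * (v 6 - v 7 * √2)) = 0 := by
    rcases h5 with h | h
    · rw [h, zero_mul]
    · rw [h, mul_zero]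
  have k6 : be * ((v 4 - v 5 * √2) - √5 * (v 6 - v 7 * √2)) = 0 := by
    rcases h6 with h | h
    · rw [h, zero_mul]
    · rw [h, mul_zero]
  have e1 : (v 2 + v 3 * √2) - be * (v 6 + v 7 * √2) = 0 := h1
  have e2 : (v 2 + v 3 * √2) + be * (v 6 + v 7 * √2) = 0 := h2
  have m5 := (mul_eq_zero.1 k5).resolve_left hb.ne'
  have m6 := (mul_eq_zero.1 k6).resolve_left hb.ne'
  have x1 : v 0 + v 1 * √2 = 0 := by linarith
  have x2 : v 0 - v 1 * √2 = 0 := by linarith
  have z1 : be * (v 4 + v 5 * √2) = 0 := by linarith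
  have z1' := (mul_eq_zero.1 z1).resolve_left hb.ne'
  have z2 : v 4 - v 5 * √2 = 0 := by linarith
  have y1 : v 2 + v 3 * √2 = 0 := by linarith
  have y2 : √5 * (v 2 - v 3 * √2) = 0 := by linarith
  have y2' := (mul_eq_zero.1 y2).resolve_left r5.ne'
  have w1 : be * (v 6 + v 7 * √2) = 0 := by linarith
  have w1' := (mul_eq_zero.1 w1).resolve_left hb.ne'
  have w2 : √5 * (v 6 - v 7 * √2) = 0 := by linarith
  have w2' := (mul_eq_zero.1 w2).resolve_left r5.ne'
  have a0 : v 0 = 0 := by linarith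
  have a1 : v 1 * √2 = 0 := by linarith
  have a1' := (mul_eq_zero.1 a1).resolve_right r2.ne'
  have a2 : v 2 = 0 := by linarith
  have a3 : v 3 * √2 = 0 := by linarith
  have a3' := (mul_eq_zero.1 a3).resolve_right r2.ne'
  have a4 : v 4 = 0 := by linarith
  have a5 : v 5 * √2 = 0 := by linarith
  have a5' := (mul_eq_zero.1 a5).resolve_right r2.ne'
  have a6 : v 6 = 0 := by linarith
  have a7 : v 7 * √2 = 0 := by linarith
  have a7' := (mul_eq_zero.1 a7).resolve_right r2.ne'
  funext i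
  fin_cases i <;> assumption

lemma base_det : LinearMap.det base ≠ 0 := by
  intro h
  have h1 := LinearMap.bot_lt_ker_of_det_eq_zero h
  rw [LinearMap.ker_eq_bot.2 base_inj] at h1
  exact lt_irrefl _ h1

/-- the triangular map -/
noncomputable def Dm (a b a' b' : ℝ) : Matrix (Fin 8) (Fin 8) ℝ :=
  !![a, 0, 0, 0, 0, 0, 0, 0;
     b, a⁻¹, 0, 0, 0, 0, 0, 0;
     0, 0, a, 0, 0, 0, 0, 0;
     0, 0, b, a⁻¹, 0, 0, 0, 0;
     0, 0, 0, 0, a', 0, 0, 0;
     0, 0, 0, 0, b', a'⁻¹, 0, 0;
     0, 0, 0, 0, 0, 0, a', 0;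
     0, 0, 0, 0, 0, 0, b', a'⁻¹]

lemma Dm_det (a b a' b' : ℝ) (ha : a ≠ 0) (ha' : a' ≠ 0) : (Dm a b a' b').det = 1 := by
  rw [Matrix.det_of_lowerTriangular]
  · simp [Dm, Fin.prod_univ_succ]
    field_simp
  · intro i j hij
    rw [OrderDual.toDual_lt_toDual] at hij
    fin_cases i <;> fin_cases j <;> simp [Dm] at hij ⊢

/-- Minkowski -/
theorem mink : ∃ ρ : ℝ, 0 < ρ ∧ ∀ a b a' b' : ℝ, 0 < a → 0 < a' → ∃ q : O, q ≠ 0 ∧
    (∀ i j, |(M1 q * !![a, b; 0, a⁻¹]) i j| ≤ ρ) ∧
    (∀ i j, |(M2 q * !![a', b'; 0, a'⁻¹]) i j| ≤ ρ) := by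
  have hdet0 := base_det
  set δ := |LinearMap.det base| with hδ
  have hδ0 : 0 < δ := abs_pos.2 hdet0
  refine ⟨1 + δ, by positivity, ?_⟩
  intro a b a' b' ha ha'
  set f : (Fin 8 → ℝ) →ₗ[ℝ] (Fin 8 → ℝ) := (Matrix.toLin' (Dm a b a' b')).comp base with hf
  have hfd : LinearMap.det f = LinearMap.det base := by
    rw [hf, LinearMap.det_comp, LinearMap.det_toLin', Dm_det _ _ _ _ ha.ne' ha'.ne', one_mul]
  have hne : LinearMap.det f ≠ 0 := by rw [hfd]; exact hdet0
  set s : Set (Fin 8 → ℝ) := f ⁻¹' (Metric.closedBall 0 (1 + δ)) with hs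
  have hvol : MeasureTheory.volume s = ENNReal.ofReal (δ⁻¹ * (2 * (1 + δ)) ^ 8) := by
    rw [hs, MeasureTheory.Measure.addHaar_preimage_linearMap _ hne,
      Real.volume_pi_closedBall _ (by positivity),
      ← ENNReal.ofReal_mul (abs_nonneg _), hfd, abs_inv]
    simp [hδ]
  have hfund := ZSpan.isAddFundamentalDomain' (Pi.basisFun ℝ (Fin 8)) (MeasureTheory.volume)
  have hF : MeasureTheory.volume (ZSpan.fundamentalDomain (Pi.basisFun ℝ (Fin 8))) = 1 := by
    rw [ZSpan.fundamentalDomain_pi_basisFun, MeasureTheory.volume_pi, MeasureTheory.Measure.pi_pi]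
    simp
  have : Countable (Submodule.span ℤ (Set.range (Pi.basisFun ℝ (Fin 8)))).toAddSubgroup :=
    inferInstanceAs (Countable (Submodule.span ℤ (Set.range (Pi.basisFun ℝ (Fin 8)))))
  obtain ⟨v, hv0, hvs⟩ := MeasureTheory.exists_ne_zero_mem_lattice_of_measure_mul_two_pow_lt_measure
    (s := s) hfund (by
      intro x hx
      simp only [hs, Set.mem_preimage, mem_closedBall_zero_iff, map_neg, norm_neg] at hx ⊢
      exact hx) (by
      rw [hs]
      exact (convex_closedBall 0 (1 + δ)).linear_preimage f) (by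
      rw [hF, hvol]
      rw [one_mul, Module.finrank_fin_fun]
      have : (2 : ENNReal) ^ 8 = ENNReal.ofReal (2 ^ 8) := by
        rw [ENNReal.ofReal_pow (by norm_num)]
        norm_num
      rw [this]
      refine (ENNReal.ofReal_lt_ofReal_iff (by positivity)).2 ?_
      rw [mul_pow, ← mul_assoc, mul_comm δ⁻¹, mul_assoc]
      have h1 : 1 < δ⁻¹ * (1 + δ) ^ 8 := by
        rw [← div_eq_inv_mul, one_lt_div hδ0]
        have h2 : (1 : ℝ) ≤ (1 + δ) ^ 7 := one_le_pow₀ (by linarith)
        calc δ < 1 + δ := by linarith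
          _ = 1 * (1 + δ) := by ring
          _ ≤ (1 + δ) ^ 7 * (1 + δ) := by nlinarith
          _ = (1 + δ) ^ 8 := by ring
      linarith)
  have hmem : (v : Fin 8 → ℝ) ∈ Submodule.span ℤ (Set.range (Pi.basisFun ℝ (Fin 8))) := v.2
  have hint : ∀ i, ∃ m : ℤ, (v : Fin 8 → ℝ) i = m := by
    intro i
    have := (Pi.basisFun ℝ (Fin 8)).mem_span_iff_repr_mem ℤ (v : Fin 8 → ℝ)
    obtain ⟨m, hm⟩ := this.1 hmem i
    exact ⟨m, by simpa using hm.symm⟩
  choose m hm using hint
  have hn : ∀ i, |(f (v : Fin 8 → ℝ)) i| ≤ 1 + δ := by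
    intro i
    have h1 : ‖f (v : Fin 8 → ℝ)‖ ≤ 1 + δ := by simpa [hs] using hvs
    exact (norm_le_pi_norm _ i).trans h1
  have hfv : ∀ i, f (v : Fin 8 → ℝ) i = ∑ j, Dm a b a' b' i j * baseF (v : Fin 8 → ℝ) j := by
    intro i
    rw [hf, LinearMap.comp_apply, Matrix.toLin'_apply, Matrix.mulVec, dotProduct]
    rfl
  refine ⟨⟨⟨m 0, m 1⟩, ⟨m 2, m 3⟩, ⟨m 4, m 5⟩, ⟨m 6, m 7⟩⟩, ?_, ?_, ?_⟩
  · intro h0
    apply hv0
    apply Subtype.ext
    funext i
    have e0 := congrArg (fun q : O => q.re.re) h0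
    have e1 := congrArg (fun q : O => q.re.im) h0
    have e2 := congrArg (fun q : O => q.imI.re) h0
    have e3 := congrArg (fun q : O => q.imI.im) h0
    have e4 := congrArg (fun q : O => q.imJ.re) h0
    have e5 := congrArg (fun q : O => q.imJ.im) h0
    have e6 := congrArg (fun q : O => q.imK.re) h0
    have e7 := congrArg (fun q : O => q.imK.im) h0
    simp only [QuaternionAlgebra.re_zero, QuaternionAlgebra.imI_zero, QuaternionAlgebra.imJ_zero,
      QuaternionAlgebra.imK_zero, Zsqrtd.re_zero, Zsqrtd.im_zero] at e0 e1 e2 e3 e4 e5 e6 e7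
    rw [hm]
    fin_cases i <;> simp [*]
  · intro i j
    fin_cases i <;> fin_cases j
    · have := hn 0
      rw [hfv] at this
      simp [Dm, baseF, Fin.sum_univ_succ] at this
      refine le_of_eq_of_le ?_ this
      congr 1
      simp [M1, mA, Matrix.mul_apply, s1_apply, hm]
      ring
    · have := hn 1
      rw [hfv] at this
      simp [Dm, baseF, Fin.sum_univ_succ] at this
      refine le_of_eq_of_le ?_ this
      congr 1
      simp [M1, mA, Matrix.mul_apply, s1_apply, hm]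
      ring
    · have := hn 2
      rw [hfv] at this
      simp [Dm, baseF, Fin.sum_univ_succ] at this
      refine le_of_eq_of_le ?_ this
      congr 1
      simp [M1, mA, Matrix.mul_apply, s1_apply, hm]
      ring
    · have := hn 3
      rw [hfv] at this
      simp [Dm, baseF, Fin.sum_univ_succ] at this
      refine le_of_eq_of_le ?_ this
      congr 1
      simp [M1, mA, Matrix.mul_apply, s1_apply, hm]
      ring
  · intro i j
    fin_cases i <;> fin_cases j
    · have := hn 4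
      rw [hfv] at this
      simp [Dm, baseF, Fin.sum_univ_succ] at this
      refine le_of_eq_of_le ?_ this
      congr 1
      simp [M2, mB, Matrix.mul_apply, s2_apply, hm]
      ring
    · have := hn 5
      rw [hfv] at this
      simp [Dm, baseF, Fin.sum_univ_succ] at this
      refine le_of_eq_of_le ?_ this
      congr 1
      simp [M2, mB, Matrix.mul_apply, s2_apply, hm]
      ring
    · have := hn 6
      rw [hfv] at this
      simp [Dm, baseF, Fin.sum_univ_succ] at this
      refine le_of_eq_of_le ?_ this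
      congr 1
      simp [M2, mB, Matrix.mul_apply, s2_apply, hm]
      ring
    · have := hn 7
      rw [hfv] at this
      simp [Dm, baseF, Fin.sum_univ_succ] at this
      refine le_of_eq_of_le ?_ this
      congr 1
      simp [M2, mB, Matrix.mul_apply, s2_apply, hm]
      ring

end Pool.Agent.R785.RO
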